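import Pool.Agent.W117.Mob.D

/-!
MP_7ec8a1_co: the inequality `m(H) ≤ conn[N(H)] + 3` for every graph whose neighbourhood complex
is not simply connected (conn ≤ 0).
-/

namespace Pool.Agent.W117.Mob

open Set unitInterval

variable {V : Type} [Fintype V] {H : SimpleGraph V}

lemma k2_deg (v : Fin 2) : (((⊤ : SimpleGraph (Fin 2)).neighborSet v)).ncard ≤ 1 := by
  have hsub : (⊤ : SimpleGraph (Fin 2)).neighborSet v ⊆ {v + 1} := by
    intro w hw
    rw [SimpleGraph.mem_neighborSet, SimpleGraph.top_adj] at hw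
    rw [Set.mem_singleton_iff]
    revert hw; revert v w; decide
  exact (Set.ncard_le_ncard hsub (by simp)).trans (by simp)

lemma joined_of_k2 (hc : HomConnected (⊤ : SimpleGraph (Fin 2)) H) (x y : nbhd H) :
    Joined x y := by
  classical
  let q : ((⊤ : SimpleGraph (Fin 2)) →g H) → nbhd H := fun f =>
    ⟨pv (f 0), cell_sub (f 1) (pv_cell (f.map_adj (by decide)))⟩
  have hstep : ∀ f g : (⊤ : SimpleGraph (Fin 2)) →g H, DiffOne f g → Joined (q f) (q g) := by
    intro f g hfg
    exact ⟨seg (f 1) (q f) (q g) (pv_cell (f.map_adj (by decide)))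
      (pv_cell (hom_close f g hfg (by decide)))⟩
  have hall : ∀ f g : (⊤ : SimpleGraph (Fin 2)) →g H, Joined (q f) (q g) := by
    intro f g
    induction hc f g with
    | refl => exact Joined.refl _
    | tail _ hab ih => exact ih.trans (hstep _ _ hab)
  have hpt : ∀ z : nbhd H, ∃ f, Joined z (q f) := by
    intro z
    obtain ⟨u, hu⟩ := exists_cell z
    obtain ⟨v, hv⟩ := exists_pos z
    have hadj : H.Adj u v := hu.2.2 v hv.ne'
    let f : (⊤ : SimpleGraph (Fin 2)) →g H :=
      { toFun := fun i => if i = 0 then v else u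
        map_rel' := by
          intro a b hab
          fin_cases a <;> fin_cases b <;> simp_all [hadj.symm] }
    refine ⟨f, ⟨seg u z (q f) hu ?_⟩⟩
    have h0 : f 0 = v := rfl
    change pv (f 0) ∈ cell H u
    rw [h0]; exact pv_cell hadj
  obtain ⟨f, hf⟩ := hpt x
  obtain ⟨g, hg⟩ := hpt y
  exact hf.trans ((hall f g).trans hg.symm)

lemma nonempty_nbhd (hH : H ≠ ⊥) : Nonempty (nbhd H) := by
  obtain ⟨a, b, hab⟩ := SimpleGraph.ne_bot_iff_exists_adj.1 hH
  exact ⟨⟨pv b, cell_sub a (pv_cell hab)⟩⟩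

lemma pc_of_mobile (hH : H ≠ ⊥) (d : ℕ) (hd : 3 ≤ d) (hm : Mobile H d) :
    PathConnectedSpace (nbhd H) :=
  { nonempty := nonempty_nbhd hH
    joined := joined_of_k2 (hm (Fin 2) ⊤ (fun v => (k2_deg v).trans (by omega))) }

lemma sc_of_cycles [PathConnectedSpace (nbhd H)]
    (hc : ∀ N, ∃ m, N ≤ m ∧ HomConnected (cyc (2 * m)) H) : SimplyConnectedSpace (nbhd H) :=
  simply_connected_iff_loops_nullhomotopic.2 ⟨inferInstance, fun _ γ => loop_null hc γ⟩

lemma sc_of_mobile (hH : H ≠ ⊥) (d : ℕ) (hd : 4 ≤ d) (hm : Mobile H d) :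
    SimplyConnectedSpace (nbhd H) := by
  haveI := pc_of_mobile hH d (by omega) hm
  apply sc_of_cycles
  intro N
  refine ⟨N + 1, by omega, ?_⟩
  haveI : NeZero (2 * (N + 1)) := ⟨by omega⟩
  exact hm (ZMod (2 * (N + 1))) (cyc _) (fun v => (cyc_deg _ v).trans (by omega))

end Pool.Agent.W117.Mob

/-- The inequality `m(H) ≤ conn[N(H)] + 3` for all graphs with `conn[N(H)] ≤ 0`: for every finite
simple graph `H` with an edge, if `H` is `d`-mobile for some `d ≥ 3`, then the neighbourhood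
complex of `H` is path connected, and if `H` is `d`-mobile for some `d ≥ 4`, then it is simply
connected. -/
theorem Pool.Agent.Results.MP_7ec8a1_co.ConnAtMostZero.result
    (V : Type) [Fintype V] (H : SimpleGraph V) (hH : H ≠ ⊥) :
    (∀ d, 3 ≤ d → Pool.Agent.W117.Mob.Mobile H d →
      PathConnectedSpace (Pool.Agent.W117.Mob.nbhd H)) ∧
    (∀ d, 4 ≤ d → Pool.Agent.W117.Mob.Mobile H d →
      SimplyConnectedSpace (Pool.Agent.W117.Mob.nbhd H)) :=
  ⟨fun d hd hm => Pool.Agent.W117.Mob.pc_of_mobile hH d hd hm,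
    fun d hd hm => Pool.Agent.W117.Mob.sc_of_mobile hH d hd hm⟩
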