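import Pool.Agent.W117.Mob.E

/-!
MP_7ec8a1_co: a mobile graph has no essential hollow simplices.
-/

/-- If `H` is `d`-mobile, then every hollow `n`-simplex of the neighbourhood complex of `H` with
`n + 2 ≤ d` is null-homotopic: if every `n` of the `n + 1` vertices `a i` have a common neighbour,
then the simplicial map of the boundary of the `n`-simplex given by `a` is null-homotopic. -/
theorem Pool.Agent.Results.MP_7ec8a1_co.HollowSimplices.result
    (V : Type) [Fintype V] (H : SimpleGraph V) (hH : H ≠ ⊥) (d : ℕ)
    (hm : Pool.Agent.W117.Mob.Mobile H d) (n : ℕ) (hn : n + 2 ≤ d) (a : Fin (n + 1) → V)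
    (ha : Pool.Agent.W117.Mob.Hollow H a) :
    (Pool.Agent.W117.Mob.hollowMap a ha).Nullhomotopic :=
  Pool.Agent.W117.Mob.hollow_null
    (hm _ _ (fun v => (Pool.Agent.W117.Mob.crown_deg n v).trans (by omega))) hH a ha
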